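import Mathlib

/-!
# Clusters of a graph as a fixed point, and kernel data

`InC G s v` says that `v` belongs to the cluster generated by the `K_{10,4}` enumerated by `s`.
It is the least relation closed under `Step`: a cluster contains its seed, every vertex with three
neighbours in the cluster, and every cluster that can be glued to it. `Data G k H` says that `H` is
a kernel graph of `G` for some `k` clusters.
-/

namespace Pool.Agent.Lib.MP_37c7bf_co_h77dm

open Function

variable {V : Type*}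

/-- `s` enumerates a (not necessarily induced) complete bipartite subgraph `K_{10,4}`. -/
def Seed (G : SimpleGraph V) (s : Fin 14 → V) : Prop :=
  Injective s ∧ ∀ i j : Fin 14, (i : ℕ) < 10 → 10 ≤ (j : ℕ) → G.Adj (s i) (s j)

/-- `v` has three different neighbours in `S`. -/
def Three (G : SimpleGraph V) (S : V → Prop) (v : V) : Prop :=
  ∃ a : Fin 3 → V, Injective a ∧ ∀ i, S (a i) ∧ G.Adj v (a i)

/-- `S` and `T` have `j` common vertices `x` and `G` has `binom (4 - j) 2` different edges `(a, b)`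
from `S` to `T` avoiding `x` and forming a bipartite graph of maximum degree at most two. -/
def Glue (G : SimpleGraph V) (S T : V → Prop) : Prop :=
  ∃ (j : Fin 4) (x : Fin (j : ℕ) → V) (a b : Fin ((4 - (j : ℕ)).choose 2) → V),
    Injective x ∧ (∀ l, S (x l) ∧ T (x l)) ∧
    (∀ i, S (a i) ∧ T (b i) ∧ G.Adj (a i) (b i)) ∧
    (∀ i l, a i ≠ x l ∧ b i ≠ x l) ∧ (∀ i i', a i ≠ b i') ∧
    (∀ i i', i ≠ i' → ¬ (a i = a i' ∧ b i = b i')) ∧
    (∀ i i' i'', i ≠ i' → i ≠ i'' → i' ≠ i'' → ¬ (a i = a i' ∧ a i = a i'')) ∧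
    ∀ i i' i'', i ≠ i' → i ≠ i'' → i' ≠ i'' → ¬ (b i = b i' ∧ b i = b i'')

/-- The rules generating the clusters. -/
def Step (G : SimpleGraph V) (R : (Fin 14 → V) → V → Prop) (s : Fin 14 → V) (v : V) : Prop :=
  Seed G s ∧ ((∃ i, v = s i) ∨ Three G (R s) v ∨ ∃ t, Glue G (R s) (R t) ∧ R t v)

/-- `v` belongs to the cluster of the seed `s`: the least relation closed under the rules. -/
def InC (G : SimpleGraph V) (s : Fin 14 → V) (v : V) : Prop :=
  ∀ R : (Fin 14 → V) → V → Prop, (∀ s v, Step G R s v → R s v) → R s v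

theorem Three.mono {G : SimpleGraph V} {S S' : V → Prop} (h : ∀ v, S v → S' v) {v : V}
    (hv : Three G S v) : Three G S' v := by
  obtain ⟨a, ha, hS⟩ := hv
  exact ⟨a, ha, fun i => ⟨h _ (hS i).1, (hS i).2⟩⟩

theorem Glue.mono {G : SimpleGraph V} {S S' T T' : V → Prop} (h : ∀ v, S v → S' v)
    (h' : ∀ v, T v → T' v) (hG : Glue G S T) : Glue G S' T' := by
  obtain ⟨j, x, a, b, hx, h1, h2, h3⟩ := hG
  exact ⟨j, x, a, b, hx, fun l => ⟨h _ (h1 l).1, h' _ (h1 l).2⟩,
    fun i => ⟨h _ (h2 i).1, h' _ (h2 i).2.1, (h2 i).2.2⟩, h3⟩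

theorem Glue.symm {G : SimpleGraph V} {S T : V → Prop} (hG : Glue G S T) : Glue G T S := by
  obtain ⟨j, x, a, b, hx, h1, h2, h3, h4, h5, h6, h7⟩ := hG
  exact ⟨j, x, b, a, hx, fun l => (h1 l).symm, fun i => ⟨(h2 i).2.1, (h2 i).1, (h2 i).2.2.symm⟩,
    fun i l => (h3 i l).symm, fun i i' => (h4 i' i).symm, fun i i' h h' => h5 i i' h h'.symm,
    h7, h6⟩

theorem Step.mono {G : SimpleGraph V} {R R' : (Fin 14 → V) → V → Prop}
    (h : ∀ s v, R s v → R' s v) {s : Fin 14 → V} {v : V} (hv : Step G R s v) : Step G R' s v := by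
  obtain ⟨hs, h1 | h1 | ⟨t, h1, h2⟩⟩ := hv
  · exact ⟨hs, Or.inl h1⟩
  · exact ⟨hs, Or.inr (Or.inl (h1.mono (h s)))⟩
  · exact ⟨hs, Or.inr (Or.inr ⟨t, h1.mono (h s) (h t), h t v h2⟩)⟩

/-- Closure under the rules. -/
theorem InC.of_step {G : SimpleGraph V} {s : Fin 14 → V} {v : V} (h : Step G (InC G) s v) :
    InC G s v := fun R hR => hR s v (h.mono fun s' v' h' => h' R hR)


/-- Induction. -/
theorem InC.ind {G : SimpleGraph V} {R : (Fin 14 → V) → V → Prop}
    (hR : ∀ s v, Step G (fun s v => InC G s v ∧ R s v) s v → R s v) {s : Fin 14 → V} {v : V}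
    (h : InC G s v) : R s v :=
  (h (fun s v => InC G s v ∧ R s v) fun _ _ h' =>
    ⟨InC.of_step (h'.mono fun _ _ h => h.1), hR _ _ h'⟩).2

theorem InC.seed {G : SimpleGraph V} {s : Fin 14 → V} {v : V} (h : InC G s v) : Seed G s :=
  InC.ind (R := fun s _ => Seed G s) (fun _ _ h => h.1) h

theorem Seed.inC {G : SimpleGraph V} {s : Fin 14 → V} (h : Seed G s) (i : Fin 14) :
    InC G s (s i) := InC.of_step ⟨h, Or.inl ⟨i, rfl⟩⟩

theorem InC.add {G : SimpleGraph V} {s : Fin 14 → V} (hs : Seed G s) {v : V}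
    (h : Three G (InC G s) v) : InC G s v := InC.of_step ⟨hs, Or.inr (Or.inl h)⟩

theorem InC.glue {G : SimpleGraph V} {s t : Fin 14 → V} (hs : Seed G s)
    (h : Glue G (InC G s) (InC G t)) {v : V} (hv : InC G t v) : InC G s v :=
  InC.of_step ⟨hs, Or.inr (Or.inr ⟨t, h, hv⟩)⟩

/-- `H` is the kernel graph of `G` for the clusters of some seeds `c 0, …, c (k - 1)` on some set
of vertices `w 0, …, w (m - 1)`: every other vertex belongs to one of the clusters, every cluster
contains three of the vertices `w`, all common vertices of two different clusters and both ends of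
all edges inside no cluster are among them, and `H` joins two of them if they are adjacent or in a
common cluster. -/
def Data (G : SimpleGraph V) (k : ℕ) {m : ℕ} (H : SimpleGraph (Fin m)) : Prop :=
  ∃ (c : Fin k → Fin 14 → V) (w : Fin m → V),
    (∀ i, Seed G (c i)) ∧ Injective w ∧
    (∀ v, (∃ l, w l = v) ∨ ∃ i, InC G (c i) v) ∧
    (∀ i, ∃ a : Fin 3 → Fin m, Injective a ∧ ∀ l, InC G (c i) (w (a l))) ∧
    (∀ i j, (∃ v, InC G (c i) v ∧ ¬ InC G (c j) v) →
      ∀ v, InC G (c i) v → InC G (c j) v → ∃ l, w l = v) ∧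
    (∀ u v, G.Adj u v → (∃ i, InC G (c i) u ∧ InC G (c i) v) ∨
      ((∃ l, w l = u) ∧ ∃ l, w l = v)) ∧
    ∀ a b : Fin m, H.Adj a b ↔
      a ≠ b ∧ (G.Adj (w a) (w b) ∨ ∃ i, InC G (c i) (w a) ∧ InC G (c i) (w b))

/-- Some kernel graph of `G` for `k` clusters with at most `K` vertices has the property `gr`. -/
def Acc (gr : ∀ m, SimpleGraph (Fin m) → Prop) (k K : ℕ) (G : SimpleGraph V) : Prop :=
  ∃ (m : Fin (K + 1)) (H : SimpleGraph (Fin m)), gr m H ∧ Data G k H

/-- Among any `T` vertices some four have ten common neighbours. -/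
def Star (G : SimpleGraph V) (T : ℕ) : Prop :=
  ∀ U : Finset V, T ≤ U.card → ∃ s, Seed G s ∧ ∀ j : Fin 14, 10 ≤ (j : ℕ) → s j ∈ U

/-- Every independent set contains at most `k` vertices of degree less than `ε n`. -/
def Few (G : SimpleGraph V) (ε : ℝ) (k : ℕ) : Prop :=
  ∀ S : Finset V, (∀ x ∈ S, ∀ y ∈ S, ¬ G.Adj x y) →
    (∀ x ∈ S, ((G.neighborSet x).ncard : ℝ) < ε * Nat.card V) → S.card ≤ k

end Pool.Agent.Lib.MP_37c7bf_co_h77dm
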