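import Pool.Agent.Lib.MP_37c7bf_co_h77dm.Compl
import Pool.Agent.Lib.MP_37c7bf_co_h26dm.Machine
import Pool.Agent.Lib.MP_37c7bf_co_h54dm.Sound
import Pool.Agent.Lib.MP_37c7bf_co_h82dm.Star
import Pool.Agent.Lib.MP_37c7bf_co_h91dm.Bridge

/-!
# Polynomial-time recognition of generic rigidity for dense graphs
-/

open Turing Pool.Agent.Lib.FOLFP

namespace Pool.Agent.Lib.MP_37c7bf_co_h77dm

open Function

open MP_37c7bf_co_h91dm (genericallyRigid_iff_dense)

theorem few_of {n : ℕ} {G : SimpleGraph (Fin n)} {ε : ℝ} {k : ℕ}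
    (h : ∀ S : Finset (Fin n), G.IsIndepSet S →
      (∀ v ∈ S, ((G.neighborSet v).ncard : ℝ) < ε * n) → S.card ≤ k) : Few G ε k := by
  intro S hS hd
  refine h S (fun x hx y hy _ => hS x hx y hy) fun v hv => ?_
  have := hd v hv
  rwa [Nat.card_eq_fintype_card, Fintype.card_fin] at this

open Classical in
/-- A polynomial-time Turing machine for the graphs in which every independent set contains at most
`k` vertices of degree less than `ε n`. -/
theorem main (ε : ℝ) (hε : 0 < ε) (k : ℕ) :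
    ∃ (f : Graph → List Bool) (M : TM2ComputableInPolyTime Graph.encode id f),
      (∀ k, Finite (M.tm.Γ k)) ∧
      (∀ I : Graph, Few I.G ε k → f I = [decide (Pool.Agent.H26R.GenericallyRigid I.G)]) ∧
      ∀ I : Graph, f I = [true] → Pool.Agent.H26R.GenericallyRigid I.G := by
  obtain ⟨T, n₁, hT⟩ := MP_37c7bf_co_h82dm.star_of_few ε hε k
  obtain ⟨k', K, n₂, hD⟩ := exists_data T
  obtain ⟨f, M, hfin, hf⟩ := MP_37c7bf_co_h26dm.machine k' K (n₁ + n₂ + 4)
    (fun m G => Pool.Agent.H26R.GenericallyRigid G)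
    (fun m H => Pool.Agent.MP_37c7bf_co_Dense.GenericallyRigid H)
  have hacc : ∀ I : Graph, n₁ + n₂ + 4 < I.n → Acc (fun m H =>
      Pool.Agent.MP_37c7bf_co_Dense.GenericallyRigid H) k' K I.G →
      Pool.Agent.H26R.GenericallyRigid I.G := by
    rintro I hn ⟨m, H, hH, hG⟩
    have hc : 4 ≤ Fintype.card (Fin I.n) := by rw [Fintype.card_fin]; omega
    rw [genericallyRigid_iff_dense hc, MP_37c7bf_co_h54dm.Data.generic hc hG]
    exact hH
  have hsound : ∀ I : Graph, f I = [true] → Pool.Agent.H26R.GenericallyRigid I.G := by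
    intro I hI
    obtain ⟨b, hb, hb2⟩ := hf I
    rw [hI] at hb
    obtain rfl : b = true := by simpa using hb.symm
    rcases hb2.1 rfl with ⟨-, h⟩ | ⟨hn, h⟩
    · exact h
    · exact hacc I hn h
  refine ⟨f, M, hfin, fun I hI => ?_, hsound⟩
  obtain ⟨b, hb, hb2⟩ := hf I
  have hiff : b = true ↔ Pool.Agent.H26R.GenericallyRigid I.G := by
    refine ⟨fun h => hsound I (by rw [hb, h]), fun h => hb2.2 ?_⟩
    rcases Nat.lt_or_ge (n₁ + n₂ + 4) I.n with hn | hn
    · refine Or.inr ⟨hn, ?_⟩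
      obtain ⟨m, H, hH⟩ := hD I.n I.G (by omega) (hT I.n I.G (by omega) hI)
      have hc : 4 ≤ Fintype.card (Fin I.n) := by rw [Fintype.card_fin]; omega
      refine ⟨m, H, ?_, hH⟩
      exact (MP_37c7bf_co_h54dm.Data.generic hc hH).1 ((genericallyRigid_iff_dense hc _).1 h)
    · exact Or.inl ⟨hn, h⟩
  rw [hb]
  congr 1
  rcases b with _ | _
  · have : ¬ Pool.Agent.H26R.GenericallyRigid I.G := fun h => Bool.false_ne_true (hiff.2 h)
    simp [this]
  · simp [hiff.1 rfl]

end Pool.Agent.Lib.MP_37c7bf_co_h77dm
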