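import Pool.Agent.Lib.MP_37c7bf_co_h77dm.Canon
import Pool.Agent.Lib.MP_37c7bf_co_h77dm.Final
import Pool.Agent.Lib.MP_37c7bf_co_h26tw.Real

/-!
# One machine for all dense graphs: definitions and reduction

The kernel graph is tested by brute force over a small prime field.
-/

namespace Pool.Agent.Lib.MP_37c7bf_co_h77dm

open Function Pool.Agent.Lib.MP_37c7bf_co_h26tw

section
variable {V : Type*} [LinearOrder V]

/-- The canonical kernel set together with the first four vertices of every cluster. -/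
def Ker4 (G : SimpleGraph V) (v : V) : Prop :=
  Ker G v ∨ ∃ s, InC G s v ∧ ¬ ∃ a : Fin 4 → V, Injective a ∧ ∀ i, InC G s (a i) ∧ a i < v

/-- Adjacency in the kernel graph. -/
def KAdj (G : SimpleGraph V) (u v : V) : Prop :=
  u ≠ v ∧ (G.Adj u v ∨ ∃ s, InC G s u ∧ InC G s v)

/-- `w` enumerates the set `Ker4` and `H` is the kernel graph. -/
def IsKer4 (G : SimpleGraph V) {m : ℕ} (H : SimpleGraph (Fin m)) (w : Fin m → V) : Prop :=
  StrictMono w ∧ (∀ v, Ker4 G v ↔ ∃ l, w l = v) ∧ ∀ a b : Fin m, H.Adj a b ↔ KAdj G (w a) (w b)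

end

/-- Acceptance: for some prime `q + 1` with `(q + 1) ^ (3 m) < n` the kernel graph on its `m`
vertices has a realization over the field with `q + 1` elements without pinned motions. -/
def AccU {n : ℕ} (G : SimpleGraph (Fin n)) : Prop :=
  ∃ (m : ℕ) (H : SimpleGraph (Fin m)) (w : Fin m → Fin n), IsKer4 G H w ∧
    ∃ q : ℕ, (q + 1).Prime ∧ (q + 1) ^ (3 * m) < n ∧
      ∃ p : ℕ → Fin 3 → ZMod (q + 1), PR m (adjG H) p

end Pool.Agent.Lib.MP_37c7bf_co_h77dm
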