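import Pool.Agent.Lib.MP_37c7bf_co_h77dm.Compl

/-!
# The canonical kernel set

The kernel set is defined by a formula of bounded quantifier depth; it is bounded in all graphs in
which among any `T` vertices some four have ten common neighbours.
-/

namespace Pool.Agent.Lib.MP_37c7bf_co_h77dm

open Function

section
variable {V : Type*} [LinearOrder V] {G : SimpleGraph V}

/-- Membership in the canonical kernel set: `v` is in no cluster, or in two different clusters, or
an end of an edge contained in no cluster, or one of the first three vertices of a cluster. -/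
def Ker (G : SimpleGraph V) (v : V) : Prop :=
  (∀ s, ¬ InC G s v) ∨
  (∃ s t, InC G s v ∧ InC G t v ∧ ∃ u, InC G s u ∧ ¬ InC G t u) ∨
  (∃ u, G.Adj v u ∧ ∀ s, ¬ (InC G s v ∧ InC G s u)) ∨
  ∃ s, InC G s v ∧ ¬ ∃ a : Fin 3 → V, Injective a ∧ ∀ i, InC G s (a i) ∧ a i < v

/-- `w` enumerates the canonical kernel set and `H` is the kernel graph. -/
def IsKer (G : SimpleGraph V) {m : ℕ} (H : SimpleGraph (Fin m)) (w : Fin m → V) : Prop :=
  StrictMono w ∧ (∀ v, Ker G v ↔ ∃ l, w l = v) ∧
    ∀ a b : Fin m, H.Adj a b ↔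
      a ≠ b ∧ (G.Adj (w a) (w b) ∨ ∃ s, InC G s (w a) ∧ InC G s (w b))

/-- Acceptance: the canonical kernel set has at most `K` vertices and the kernel graph has the
property `gr`. -/
def AccK (gr : ∀ m, SimpleGraph (Fin m) → Prop) (K : ℕ) (G : SimpleGraph V) : Prop :=
  ∃ (m : Fin (K + 1)) (H : SimpleGraph (Fin m)), gr m H ∧ ∃ w : Fin m → V, IsKer G H w

variable [Fintype V]

omit [Fintype V] in
theorem exists_three_min {A : Finset V} (hA : 3 ≤ A.card) : ∃ a : Fin 3 → V, Injective a ∧
    ∀ i, a i ∈ A ∧ ∀ b : Fin 3 → V, Injective b → (∀ j, b j ∈ A) → ¬ ∀ j, b j < a i := by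
  classical
  let e := A.orderEmbOfFin rfl
  have hlt : ∀ i : Fin 3, (i : ℕ) < A.card := fun i => by omega
  refine ⟨fun i => e ⟨i, hlt i⟩, ?_, fun i => ⟨A.orderEmbOfFin_mem rfl _, fun b hb hbA hlt' => ?_⟩⟩
  · intro i j hij
    have := e.injective hij
    exact Fin.ext (by simpa using this)
  · have hsub : Finset.univ.image b ⊆
        (Finset.univ.filter fun j : Fin A.card => j < ⟨i, hlt i⟩).image e := by
      intro x hx
      obtain ⟨j, -, rfl⟩ := Finset.mem_image.1 hx
      have h1 : b j ∈ Set.range e := by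
        rw [A.range_orderEmbOfFin rfl]
        exact hbA j
      obtain ⟨l, hl⟩ := h1
      refine Finset.mem_image.2 ⟨l, Finset.mem_filter.2 ⟨Finset.mem_univ _, ?_⟩, hl⟩
      have h2 := hlt' j
      rw [← hl] at h2
      exact e.lt_iff_lt.1 h2
    have h1 := Finset.card_le_card hsub
    rw [Finset.card_image_of_injective _ hb] at h1
    have h2 := (Finset.card_image_le (s := Finset.univ.filter fun j : Fin A.card =>
      j < ⟨i, hlt i⟩) (f := e))
    have h3 : (Finset.univ.filter fun j : Fin A.card => j < ⟨i, hlt i⟩).card = (i : ℕ) := by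
      have : (Finset.univ.filter fun j : Fin A.card => j < ⟨i, hlt i⟩) =
          Finset.Iio ⟨(i : ℕ), hlt i⟩ := by
        ext j; simp
      rw [this, Fin.card_Iio]
    rw [h3] at h2
    have h4 : Fintype.card (Fin 3) = 3 := rfl
    rw [Finset.card_univ, h4] at h1
    omega

omit [Fintype V] in
theorem card_min_le (A : Finset V) :
    (A.filter fun v => (A.filter fun x => x < v).card ≤ 2).card ≤ 3 := by
  classical
  have h := Finset.card_le_card_of_injOn (s := A.filter fun v => (A.filter fun x => x < v).card ≤ 2)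
    (t := Finset.range 3) (fun v => (A.filter fun x => x < v).card) (by
      intro v hv
      simp only [Finset.coe_filter, Set.mem_ofPred_eq] at hv
      simp only [Finset.coe_range, Set.mem_Iio]
      omega) (by
      have key : ∀ v ∈ A, ∀ w ∈ A, v < w →
          (A.filter fun x => x < v).card < (A.filter fun x => x < w).card := by
        intro v hv w hw hvw
        refine Finset.card_lt_card ⟨fun x hx => ?_, fun hcon => ?_⟩
        · have := Finset.mem_filter.1 hx
          exact Finset.mem_filter.2 ⟨this.1, this.2.trans hvw⟩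
        · have := hcon (Finset.mem_filter.2 ⟨hv, hvw⟩)
          exact lt_irrefl _ (Finset.mem_filter.1 this).2
      intro v hv w hw hvw
      simp only [Finset.coe_filter, Set.mem_ofPred_eq] at hv hw
      rcases lt_trichotomy v w with h | h | h
      · have := key v hv.1 w hw.1 h
        simp only at hvw
        omega
      · exact h
      · have := key w hw.1 v hv.1 h
        simp only at hvw
        omega)
  simpa using h

/-- Canonical kernel data are kernel data. -/
theorem IsKer.data {m : ℕ} {H : SimpleGraph (Fin m)} {w : Fin m → V} (h : IsKer G H w) :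
    ∃ k, Data G k H := by
  classical
  obtain ⟨hw, hker, hH⟩ := h
  set 𝒮 : Finset (Fin 14 → V) := Finset.univ.filter fun s => Seed G s with h𝒮
  let c : Fin 𝒮.card → Fin 14 → V := fun i => (𝒮.equivFin.symm i : Fin 14 → V)
  have hc : ∀ i, Seed G (c i) := fun i => (Finset.mem_filter.1 (𝒮.equivFin.symm i).2).2
  have hc' : ∀ s, Seed G s → ∃ i, c i = s := fun s hs =>
    ⟨𝒮.equivFin ⟨s, by simp [h𝒮, hs]⟩, by simp [c]⟩
  have hex : ∀ {P : (Fin 14 → V) → Prop}, (∀ s, P s → Seed G s) → (∃ s, P s) → ∃ i, P (c i) := by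
    rintro P hP ⟨s, hs⟩
    obtain ⟨i, rfl⟩ := hc' s (hP s hs)
    exact ⟨i, hs⟩
  refine ⟨𝒮.card, c, w, hc, hw.injective, ?_, ?_, ?_, ?_, ?_⟩
  · intro v
    by_cases hv : ∃ s, InC G s v
    · exact Or.inr (hex (P := fun s => InC G s v) (fun s hs => hs.seed) hv)
    · push Not at hv
      exact Or.inl ((hker v).1 (Or.inl hv))
  · intro i
    have h3 : 3 ≤ (cl G (c i)).card := by
      have h14 : (Finset.univ.image (c i)).card = 14 := by
        rw [Finset.card_image_of_injective _ (hc i).1]; rfl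
      have : Finset.univ.image (c i) ⊆ cl G (c i) := by
        intro x hx
        obtain ⟨j, -, rfl⟩ := Finset.mem_image.1 hx
        exact mem_cl.2 ((hc i).inC j)
      have := Finset.card_le_card this
      omega
    obtain ⟨a, ha, ha'⟩ := exists_three_min h3
    have hK : ∀ l, ∃ x, w x = a l := by
      intro l
      refine (hker (a l)).1 (Or.inr (Or.inr (Or.inr ⟨c i, mem_cl.1 (ha' l).1, ?_⟩)))
      rintro ⟨b, hb, hb'⟩
      exact (ha' l).2 b hb (fun j => mem_cl.2 (hb' j).1) fun j => (hb' j).2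
    choose x hx using hK
    refine ⟨x, ?_, ?_⟩
    · intro l l' hl
      apply ha
      rw [← hx, ← hx, hl]
    · intro l
      rw [hx]
      exact mem_cl.1 (ha' l).1
  · intro i j hij v hi hj
    exact (hker v).1 (Or.inr (Or.inl ⟨c i, c j, hi, hj, hij⟩))
  · intro u v huv
    by_cases hno : ∃ s, InC G s u ∧ InC G s v
    · exact Or.inl (hex (P := fun s => InC G s u ∧ InC G s v) (fun s hs => hs.1.seed) hno)
    · push Not at hno
      refine Or.inr ⟨(hker u).1 (Or.inr (Or.inr (Or.inl ⟨v, huv, ?_⟩))),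
        (hker v).1 (Or.inr (Or.inr (Or.inl ⟨u, huv.symm, ?_⟩)))⟩
      · exact fun s hs => hno s hs.1 hs.2
      · exact fun s hs => hno s hs.2 hs.1
  · intro a b
    rw [hH]
    refine and_congr_right fun _ => or_congr_right ?_
    constructor
    · exact fun h => hex (P := fun s => InC G s (w a) ∧ InC G s (w b)) (fun s hs => hs.1.seed) h
    · rintro ⟨i, hi⟩
      exact ⟨c i, hi⟩

end

section
variable {V : Type*} [Fintype V] [DecidableEq V] {G : SimpleGraph V}

omit [Fintype V] [DecidableEq V] in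
/-- Every vertex of a cluster has two neighbours in the cluster. -/
theorem InC.two {s : Fin 14 → V} {v : V} (h : InC G s v) :
    ∃ x y, x ≠ y ∧ InC G s x ∧ InC G s y ∧ G.Adj v x ∧ G.Adj v y := by
  refine InC.ind (R := fun s v => ∃ x y, x ≠ y ∧ InC G s x ∧ InC G s y ∧ G.Adj v x ∧ G.Adj v y)
    ?_ h
  rintro s v ⟨hs, ⟨i, rfl⟩ | ⟨a, ha, hS⟩ | ⟨t, h1, -, x, y, hxy, hx, hy, hvx, hvy⟩⟩
  · by_cases hi : (i : ℕ) < 10
    · exact ⟨s 10, s 11, fun h => absurd (hs.1 h) (by decide), hs.inC _, hs.inC _,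
        hs.2 _ _ hi (by decide), hs.2 _ _ hi (by decide)⟩
    · exact ⟨s 0, s 1, fun h => absurd (hs.1 h) (by decide), hs.inC _, hs.inC _,
        (hs.2 _ _ (by decide) (by omega)).symm, (hs.2 _ _ (by decide) (by omega)).symm⟩
  · exact ⟨a 0, a 1, fun h => absurd (ha h) (by decide), (hS 0).1.1, (hS 1).1.1, (hS 0).2,
      (hS 1).2⟩
  · have hg : Glue G (InC G s) (InC G t) := h1.mono (fun _ h => h.1) fun _ h => h.1
    exact ⟨x, y, hxy, InC.glue hs hg hx, InC.glue hs hg hy, hvx, hvy⟩

/-- Common vertices of clusters and ends of the remaining edges. -/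
theorem exists_ends {k : ℕ} {c : Fin k → Fin 14 → V} (hc : ∀ i, Seed G (c i))
    {U : Finset V} (hU : ∀ v, v ∉ U → ∃ i, InC G (c i) v) :
    ∃ W : Finset V, W.card ≤ U.card + 5 * (k * k) + 2 * (k * U.card) ∧ U ⊆ W ∧
      (∀ i j, cl G (c i) ≠ cl G (c j) → ∀ v, InC G (c i) v → InC G (c j) v → v ∈ W) ∧
      ∀ u v, G.Adj u v → (∀ i, ¬ (InC G (c i) u ∧ InC G (c i) v)) → u ∈ W := by
  classical
  let P : Fin k × Fin k → Finset V := fun q => if cl G (c q.1) = cl G (c q.2) then ∅ else
    (cl G (c q.1) ∩ cl G (c q.2)) ∪ (crs G (cl G (c q.1)) (cl G (c q.2))).image Prod.fst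
  let Q : Fin k × V → Finset V := fun q => if q.2 ∈ cl G (c q.1) then ∅ else
    (cl G (c q.1)).filter fun w => G.Adj q.2 w
  set W : Finset V := U ∪ Finset.univ.biUnion P ∪ (Finset.univ ×ˢ U).biUnion Q with hW
  have hWU : ∀ v ∈ U, v ∈ W := fun v hv => by simp [hW, hv]
  have hWP : ∀ q, ∀ v ∈ P q, v ∈ W := fun q v hv => by
    rw [hW]
    exact Finset.mem_union_left _ (Finset.mem_union_right _
      (Finset.mem_biUnion.2 ⟨q, Finset.mem_univ _, hv⟩))
  have hWQ : ∀ i, ∀ x ∈ U, ∀ v ∈ Q (i, x), v ∈ W := fun i x hx v hv => by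
    rw [hW]
    exact Finset.mem_union_right _ (Finset.mem_biUnion.2 ⟨(i, x), by simp [hx], hv⟩)
  refine ⟨W, ?_, hWU, ?_, ?_⟩
  · rw [hW]
    refine (Finset.card_union_le _ _).trans (Nat.add_le_add ((Finset.card_union_le _ _).trans
      (Nat.add_le_add le_rfl ?_)) ?_)
    · refine Finset.card_biUnion_le.trans
        ((Finset.sum_le_card_nsmul _ _ 5 fun q _ => ?_).trans ?_)
      · dsimp only [P]
        split_ifs with h
        · simp
        · exact card_piece_le (hc _) (hc _) h
      · simp [mul_comm]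
    · refine Finset.card_biUnion_le.trans
        ((Finset.sum_le_card_nsmul _ _ 2 fun q _ => ?_).trans ?_)
      · dsimp only [Q]
        split_ifs with h
        · simp
        · exact card_nbrs_le (hc _) h
      · simp [mul_comm]
  · intro i j hne v hi hj
    refine hWP (i, j) v ?_
    dsimp only [P]
    rw [if_neg hne]
    exact Finset.mem_union_left _ (Finset.mem_inter.2 ⟨mem_cl.2 hi, mem_cl.2 hj⟩)
  · intro u v huv hno
    by_cases hu : u ∈ U
    · exact hWU u hu
    obtain ⟨i, hi⟩ := hU u hu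
    have hvi : v ∉ cl G (c i) := fun h => hno i ⟨hi, mem_cl.1 h⟩
    by_cases hv : v ∈ U
    · refine hWQ i v hv u ?_
      dsimp only [Q]
      rw [if_neg hvi]
      exact Finset.mem_filter.2 ⟨mem_cl.2 hi, huv.symm⟩
    obtain ⟨j, hj⟩ := hU v hv
    have huj : u ∉ cl G (c j) := fun h => hno j ⟨mem_cl.1 h, hj⟩
    have hne : cl G (c i) ≠ cl G (c j) := by
      intro h
      exact hvi (h ▸ mem_cl.2 hj)
    refine hWP (i, j) u ?_
    dsimp only [P]
    rw [if_neg hne]
    refine Finset.mem_union_right _ (Finset.mem_image.2 ⟨(u, v), ?_, rfl⟩)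
    exact mem_crs.2 ⟨⟨mem_cl.2 hi, huj⟩, ⟨mem_cl.2 hj, hvi⟩, huv⟩

/-- The other clusters lie in the kernel set of the covering clusters. -/
theorem other_subset {k : ℕ} {c : Fin k → Fin 14 → V} (hc : ∀ i, Seed G (c i))
    {U W : Finset V} (hU : ∀ v, v ∉ U → ∃ i, InC G (c i) v) (hUW : U ⊆ W)
    (hpair : ∀ i j, cl G (c i) ≠ cl G (c j) → ∀ v, InC G (c i) v → InC G (c j) v → v ∈ W)
    (hends : ∀ u v, G.Adj u v → (∀ i, ¬ (InC G (c i) u ∧ InC G (c i) v)) → u ∈ W)
    {s : Fin 14 → V} (hs : Seed G s) (hne : ∀ i, cl G s ≠ cl G (c i)) : cl G s ⊆ W := by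
  intro v hv
  by_cases hvU : v ∈ U
  · exact hUW hvU
  obtain ⟨i, hi⟩ := hU v hvU
  rw [mem_cl] at hv
  obtain ⟨x, y, hxy, hx, hy, hvx, hvy⟩ := hv.two
  have key : ∀ z, InC G s z → G.Adj v z → ¬ InC G (c i) z → v ∈ W := by
    intro z hz hvz hzi
    by_cases hj : ∃ j, InC G (c j) v ∧ InC G (c j) z
    · obtain ⟨j, hj1, hj2⟩ := hj
      refine hpair i j ?_ v hi hj1
      intro h
      exact hzi (mem_cl.1 (h ▸ mem_cl.2 hj2))
    · push Not at hj
      exact hends v z hvz fun j h => hj j h.1 h.2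
  by_cases hxi : InC G (c i) x
  · by_cases hyi : InC G (c i) y
    · exfalso
      refine three_of_card_le_two (s := cl G s ∩ cl G (c i)) (a := v) (b := x) (c := y)
        ?_ ?_ ?_ (card_inter_le hs (hc i) (hne i)) hvx.ne hvy.ne hxy
      · exact Finset.mem_inter.2 ⟨mem_cl.2 hv, mem_cl.2 hi⟩
      · exact Finset.mem_inter.2 ⟨mem_cl.2 hx, mem_cl.2 hxi⟩
      · exact Finset.mem_inter.2 ⟨mem_cl.2 hy, mem_cl.2 hyi⟩
    · exact key y hy hvy hyi
  · exact key x hx hvx hxi

end

/-- A bound for the canonical kernel set. -/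
def kerBound (T : ℕ) : ℕ :=
  T + 5 * (T.choose 3 * T.choose 3) + 2 * (T.choose 3 * T) + 3 * T.choose 3

theorem card_ker_le {V : Type*} [LinearOrder V] [Fintype V] {G : SimpleGraph V} {T : ℕ}
    (hT : Star G T) (hn : T < Fintype.card V) {S : Finset V} (hS : ∀ v ∈ S, Ker G v) :
    S.card ≤ kerBound T := by
  classical
  obtain ⟨U, hUT, hU⟩ := exists_exceptional hT
  obtain ⟨𝒮, h𝒮, hcard, hcov⟩ := exists_seeds hU
  have hne : 𝒮.Nonempty := by
    obtain ⟨v, hv⟩ : ∃ v, v ∉ U := by
      by_contra hcon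
      push Not at hcon
      have : Fintype.card V ≤ U.card := by
        rw [← Finset.card_univ]
        exact Finset.card_le_card fun x _ => hcon x
      omega
    obtain ⟨s, hs, -⟩ := hcov v hv
    exact ⟨s, hs⟩
  obtain ⟨c, hc, hc'⟩ := exists_enum hne (hcard.trans (Nat.choose_le_choose 3 hUT.le))
  have hcS : ∀ i, Seed G (c i) := fun i => h𝒮 _ (hc i)
  have hcU : ∀ v, v ∉ U → ∃ i, InC G (c i) v := by
    intro v hv
    obtain ⟨s, hs, hsv⟩ := hcov v hv
    obtain ⟨i, rfl⟩ := hc' s hs
    exact ⟨i, hsv⟩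
  obtain ⟨W, hWc, hUW, hpair, hends⟩ := exists_ends hcS hcU
  -- the other clusters lie in `W`
  have hoth : ∀ s v, InC G s v → v ∉ W → ∃ i, cl G s = cl G (c i) := by
    intro s v hsv hv
    by_contra hcon
    push Not at hcon
    exact hv (other_subset hcS hcU hUW hpair hends hsv.seed hcon (mem_cl.2 hsv))
  let M : Fin (T.choose 3) → Finset V := fun i =>
    (cl G (c i)).filter fun v => ((cl G (c i)).filter fun x => x < v).card ≤ 2
  have hsub : S ⊆ W ∪ Finset.univ.biUnion M := by
    intro v hv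
    by_cases hvW : v ∈ W
    · exact Finset.mem_union_left _ hvW
    rcases hS v hv with h | ⟨s, t, hs, ht, u, hu, hu'⟩ | ⟨u, hvu, h⟩ | ⟨s, hs, h⟩
    · refine Finset.mem_union_left _ (hUW ?_)
      by_contra hcon
      obtain ⟨i, hi⟩ := hcU v hcon
      exact h _ hi
    · obtain ⟨i, hi⟩ := hoth s v hs hvW
      obtain ⟨j, hj⟩ := hoth t v ht hvW
      refine Finset.mem_union_left _ (hpair i j ?_ v ?_ ?_)
      · rw [← hi, ← hj]
        intro h
        exact hu' (mem_cl.1 (h ▸ mem_cl.2 hu))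
      · rw [← mem_cl, ← hi, mem_cl]
        exact hs
      · rw [← mem_cl, ← hj, mem_cl]
        exact ht
    · exact Finset.mem_union_left _ (hends v u hvu fun i => h (c i))
    · obtain ⟨i, hi⟩ := hoth s v hs hvW
      refine Finset.mem_union_right _ (Finset.mem_biUnion.2 ⟨i, Finset.mem_univ _,
        Finset.mem_filter.2 ⟨by rw [← hi]; exact mem_cl.2 hs, ?_⟩⟩)
      by_contra hcon
      obtain ⟨Y, hY, hY3⟩ := Finset.exists_subset_card_eq
        (show 3 ≤ ((cl G (c i)).filter fun x => x < v).card by omega)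
      let e := (Finset.equivFinOfCardEq hY3).symm
      refine h ⟨fun l => (e l : V), fun l l' hl => e.injective (Subtype.ext hl), fun l => ?_⟩
      have h1 := Finset.mem_filter.1 (hY (e l).2)
      rw [← hi, mem_cl] at h1
      exact h1
  refine (Finset.card_le_card hsub).trans ((Finset.card_union_le _ _).trans ?_)
  have h1 : (Finset.univ.biUnion M).card ≤ 3 * T.choose 3 := by
    refine Finset.card_biUnion_le.trans ((Finset.sum_le_card_nsmul _ _ 3 fun i _ =>
      card_min_le _).trans ?_)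
    simp [mul_comm]
  have h3 : T.choose 3 * U.card ≤ T.choose 3 * T := Nat.mul_le_mul_left _ hUT.le
  unfold kerBound
  omega

/-- The kernel graph on an enumerated set of vertices. -/
def kgraph {V : Type*} (G : SimpleGraph V) {m : ℕ} (w : Fin m → V) : SimpleGraph (Fin m) where
  Adj a b := a ≠ b ∧ (G.Adj (w a) (w b) ∨ ∃ s, InC G s (w a) ∧ InC G s (w b))
  symm := ⟨fun _ _ h => ⟨h.1.symm, h.2.imp (fun h => h.symm) fun ⟨s, h1, h2⟩ => ⟨s, h2, h1⟩⟩⟩
  loopless := ⟨fun _ h => h.1 rfl⟩

theorem exists_isKer_of_card {n K : ℕ} {G : SimpleGraph (Fin n)}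
    (hK : ∀ S : Finset (Fin n), (∀ v ∈ S, Ker G v) → S.card ≤ K) :
    ∃ (m : Fin (K + 1)) (H : SimpleGraph (Fin m)) (w : Fin m → Fin n), IsKer G H w := by
  classical
  set S : Finset (Fin n) := Finset.univ.filter fun v => Ker G v with hS
  have hcard : S.card ≤ K := hK S fun v hv => (Finset.mem_filter.1 hv).2
  refine ⟨⟨S.card, by omega⟩, kgraph G (S.orderEmbOfFin rfl), S.orderEmbOfFin rfl,
    (S.orderEmbOfFin rfl).strictMono, fun v => ?_, fun a b => Iff.rfl⟩
  have h1 : v ∈ Set.range (S.orderEmbOfFin rfl) ↔ v ∈ S := by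
    rw [S.range_orderEmbOfFin rfl]; rfl
  rw [← Set.mem_range, h1, hS]
  simp

/-- **The canonical kernel data exist** and are bounded, for the small graphs and for the large
graphs in which among any `T` vertices some four have ten common neighbours. -/
theorem exists_isKer (T n₀ : ℕ) (n : ℕ) (G : SimpleGraph (Fin n)) (hT : n₀ < n → Star G T) :
    ∃ (m : Fin (kerBound T + n₀ + T + 1)) (H : SimpleGraph (Fin m)) (w : Fin m → Fin n),
      IsKer G H w := by
  refine exists_isKer_of_card fun S hS => ?_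
  by_cases hn : n₀ + T < n
  · have := card_ker_le (hT (by omega)) (by rw [Fintype.card_fin]; omega) hS
    omega
  · have := S.card_le_univ
    rw [Fintype.card_fin] at this
    omega

end Pool.Agent.Lib.MP_37c7bf_co_h77dm
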