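import Pool.Agent.Lib.MP_37c7bf_co_h77dm.Uni

/-!
# One machine for all dense graphs: correctness of the acceptance condition
-/

namespace Pool.Agent.Lib.MP_37c7bf_co_h77dm

open Function Pool.Agent.Lib.MP_37c7bf_co_h26tw

open MP_37c7bf_co_h91dm (genericallyRigid_iff_dense)

section
variable {V : Type*} [LinearOrder V] {G : SimpleGraph V}

theorem exists_first {A : Finset V} {r : ℕ} (hA : r ≤ A.card) : ∃ a : Fin r → V, StrictMono a ∧
    ∀ i, a i ∈ A ∧ ∀ b : Fin r → V, Injective b → (∀ j, b j ∈ A) → ¬ ∀ j, b j < a i := by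
  classical
  let e := A.orderEmbOfFin rfl
  have hlt : ∀ i : Fin r, (i : ℕ) < A.card := fun i => by omega
  refine ⟨fun i => e ⟨i, hlt i⟩, ?_, fun i => ⟨A.orderEmbOfFin_mem rfl _, fun b hb hbA hlt' => ?_⟩⟩
  · intro i j hij
    exact e.strictMono hij
  · have hsub : Finset.univ.image b ⊆
        (Finset.univ.filter fun j : Fin A.card => j < ⟨i, hlt i⟩).image e := by
      intro x hx
      obtain ⟨j, -, rfl⟩ := Finset.mem_image.1 hx
      have h1 : b j ∈ Set.range e := by
        rw [A.range_orderEmbOfFin rfl]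
        exact hbA j
      obtain ⟨l, hl⟩ := h1
      refine Finset.mem_image.2 ⟨l, Finset.mem_filter.2 ⟨Finset.mem_univ _, ?_⟩, hl⟩
      have h2 := hlt' j
      rw [← hl] at h2
      exact e.lt_iff_lt.1 h2
    have h1 := Finset.card_le_card hsub
    rw [Finset.card_image_of_injective _ hb] at h1
    have h2 := (Finset.card_image_le (s := Finset.univ.filter fun j : Fin A.card =>
      j < ⟨i, hlt i⟩) (f := e))
    have h3 : (Finset.univ.filter fun j : Fin A.card => j < ⟨i, hlt i⟩).card = (i : ℕ) := by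
      have : (Finset.univ.filter fun j : Fin A.card => j < ⟨i, hlt i⟩) =
          Finset.Iio ⟨(i : ℕ), hlt i⟩ := by
        ext j; simp
      rw [this, Fin.card_Iio]
    rw [h3] at h2
    rw [Finset.card_univ, Fintype.card_fin] at h1
    omega

theorem card_first_le (A : Finset V) (r : ℕ) :
    (A.filter fun v => (A.filter fun x => x < v).card < r).card ≤ r := by
  classical
  have h := Finset.card_le_card_of_injOn (s := A.filter fun v => (A.filter fun x => x < v).card < r)
    (t := Finset.range r) (fun v => (A.filter fun x => x < v).card) (by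
      intro v hv
      simp only [Finset.coe_filter, Set.mem_ofPred_eq] at hv
      simp only [Finset.coe_range, Set.mem_Iio]
      omega) (by
      have key : ∀ v ∈ A, ∀ w ∈ A, v < w →
          (A.filter fun x => x < v).card < (A.filter fun x => x < w).card := by
        intro v hv w hw hvw
        refine Finset.card_lt_card ⟨fun x hx => ?_, fun hcon => ?_⟩
        · have := Finset.mem_filter.1 hx
          exact Finset.mem_filter.2 ⟨this.1, this.2.trans hvw⟩
        · have := hcon (Finset.mem_filter.2 ⟨hv, hvw⟩)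
          exact lt_irrefl _ (Finset.mem_filter.1 this).2
      intro v hv w hw hvw
      simp only [Finset.coe_filter, Set.mem_ofPred_eq] at hv hw
      rcases lt_trichotomy v w with h | h | h
      · have := key v hv.1 w hw.1 h
        simp only at hvw
        omega
      · exact h
      · have := key w hw.1 v hv.1 h
        simp only at hvw
        omega)
  simpa using h

end

section
variable {V : Type*} [LinearOrder V] [Fintype V] {G : SimpleGraph V}

/-- Enumerated sets containing the canonical kernel set give kernel data. -/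
theorem data_of_ker {m : ℕ} {H : SimpleGraph (Fin m)} {w : Fin m → V} (hw : Injective w)
    (hker : ∀ v, Ker G v → ∃ l, w l = v) (hH : ∀ a b : Fin m, H.Adj a b ↔ KAdj G (w a) (w b)) :
    ∃ k, Data G k H := by
  classical
  set 𝒮 : Finset (Fin 14 → V) := Finset.univ.filter fun s => Seed G s with h𝒮
  let c : Fin 𝒮.card → Fin 14 → V := fun i => (𝒮.equivFin.symm i : Fin 14 → V)
  have hc : ∀ i, Seed G (c i) := fun i => (Finset.mem_filter.1 (𝒮.equivFin.symm i).2).2
  have hc' : ∀ s, Seed G s → ∃ i, c i = s := fun s hs =>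
    ⟨𝒮.equivFin ⟨s, by simp [h𝒮, hs]⟩, by simp [c]⟩
  have hex : ∀ {P : (Fin 14 → V) → Prop}, (∀ s, P s → Seed G s) → (∃ s, P s) → ∃ i, P (c i) := by
    rintro P hP ⟨s, hs⟩
    obtain ⟨i, rfl⟩ := hc' s (hP s hs)
    exact ⟨i, hs⟩
  refine ⟨𝒮.card, c, w, hc, hw, ?_, ?_, ?_, ?_, ?_⟩
  · intro v
    by_cases hv : ∃ s, InC G s v
    · exact Or.inr (hex (P := fun s => InC G s v) (fun s hs => hs.seed) hv)
    · push Not at hv
      exact Or.inl (hker v (Or.inl hv))
  · intro i
    have h3 : 3 ≤ (cl G (c i)).card := by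
      have h14 : (Finset.univ.image (c i)).card = 14 := by
        rw [Finset.card_image_of_injective _ (hc i).1]; rfl
      have : Finset.univ.image (c i) ⊆ cl G (c i) := by
        intro x hx
        obtain ⟨j, -, rfl⟩ := Finset.mem_image.1 hx
        exact mem_cl.2 ((hc i).inC j)
      have := Finset.card_le_card this
      omega
    obtain ⟨a, ha, ha'⟩ := exists_three_min h3
    have hK : ∀ l, ∃ x, w x = a l := by
      intro l
      refine hker (a l) (Or.inr (Or.inr (Or.inr ⟨c i, mem_cl.1 (ha' l).1, ?_⟩)))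
      rintro ⟨b, hb, hb'⟩
      exact (ha' l).2 b hb (fun j => mem_cl.2 (hb' j).1) fun j => (hb' j).2
    choose x hx using hK
    refine ⟨x, ?_, ?_⟩
    · intro l l' hl
      apply ha
      rw [← hx, ← hx, hl]
    · intro l
      rw [hx]
      exact mem_cl.1 (ha' l).1
  · intro i j hij v hi hj
    exact hker v (Or.inr (Or.inl ⟨c i, c j, hi, hj, hij⟩))
  · intro u v huv
    by_cases hno : ∃ s, InC G s u ∧ InC G s v
    · exact Or.inl (hex (P := fun s => InC G s u ∧ InC G s v) (fun s hs => hs.1.seed) hno)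
    · push Not at hno
      refine Or.inr ⟨hker u (Or.inr (Or.inr (Or.inl ⟨v, huv, ?_⟩))),
        hker v (Or.inr (Or.inr (Or.inl ⟨u, huv.symm, ?_⟩)))⟩
      · exact fun s hs => hno s hs.1 hs.2
      · exact fun s hs => hno s hs.2 hs.1
  · intro a b
    rw [hH]
    unfold KAdj
    rw [hw.ne_iff]
    refine and_congr_right fun _ => or_congr_right ?_
    constructor
    · exact fun h => hex (P := fun s => InC G s (w a) ∧ InC G s (w b)) (fun s hs => hs.1.seed) h
    · rintro ⟨i, hi⟩
      exact ⟨c i, hi⟩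

theorem IsKer4.data {m : ℕ} {H : SimpleGraph (Fin m)} {w : Fin m → V} (h : IsKer4 G H w) :
    ∃ k, Data G k H :=
  data_of_ker h.1.injective (fun v hv => (h.2.1 v).1 (Or.inl hv)) h.2.2

theorem IsKer4.four_le {m : ℕ} {H : SimpleGraph (Fin m)} {w : Fin m → V} (h : IsKer4 G H w)
    (hV : 4 ≤ Fintype.card V) : 4 ≤ m := by
  classical
  by_cases hs : ∃ s, Seed G s
  · obtain ⟨s, hs⟩ := hs
    have h4 : 4 ≤ (cl G s).card := by
      have h14 : (Finset.univ.image s).card = 14 := by
        rw [Finset.card_image_of_injective _ hs.1]; rfl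
      have : Finset.univ.image s ⊆ cl G s := by
        intro x hx
        obtain ⟨j, -, rfl⟩ := Finset.mem_image.1 hx
        exact mem_cl.2 (hs.inC j)
      have := Finset.card_le_card this
      omega
    obtain ⟨a, ha, ha'⟩ := exists_first h4
    have hK : ∀ l, ∃ x, w x = a l := by
      intro l
      refine (h.2.1 (a l)).1 (Or.inr ⟨s, mem_cl.1 (ha' l).1, ?_⟩)
      rintro ⟨b, hb, hb'⟩
      exact (ha' l).2 b hb (fun j => mem_cl.2 (hb' j).1) fun j => (hb' j).2
    choose x hx using hK
    have hxi : Injective x := by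
      intro l l' hl
      apply ha.injective
      rw [← hx, ← hx, hl]
    simpa using Fintype.card_le_of_injective x hxi
  · push Not at hs
    have hsur : Surjective w := fun v =>
      (h.2.1 v).1 (Or.inl (Or.inl fun s hs' => hs s hs'.seed))
    have := Fintype.card_le_of_surjective w hsur
    rw [Fintype.card_fin] at this
    omega

/-- A bound for the extended kernel set. -/
def kb (T : ℕ) : ℕ :=
  T + 5 * (T.choose 3 * T.choose 3) + 2 * (T.choose 3 * T) + 7 * T.choose 3

theorem card_ker4_le {T : ℕ} (hT : Star G T) (hn : T < Fintype.card V) {S : Finset V}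
    (hS : ∀ v ∈ S, Ker4 G v) : S.card ≤ kb T := by
  classical
  obtain ⟨U, hUT, hU⟩ := exists_exceptional hT
  obtain ⟨𝒮, h𝒮, hcard, hcov⟩ := exists_seeds hU
  have hne : 𝒮.Nonempty := by
    obtain ⟨v, hv⟩ : ∃ v, v ∉ U := by
      by_contra hcon
      push Not at hcon
      have : Fintype.card V ≤ U.card := by
        rw [← Finset.card_univ]
        exact Finset.card_le_card fun x _ => hcon x
      omega
    obtain ⟨s, hs, -⟩ := hcov v hv
    exact ⟨s, hs⟩
  obtain ⟨c, hc, hc'⟩ := exists_enum hne (hcard.trans (Nat.choose_le_choose 3 hUT.le))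
  have hcS : ∀ i, Seed G (c i) := fun i => h𝒮 _ (hc i)
  have hcU : ∀ v, v ∉ U → ∃ i, InC G (c i) v := by
    intro v hv
    obtain ⟨s, hs, hsv⟩ := hcov v hv
    obtain ⟨i, rfl⟩ := hc' s hs
    exact ⟨i, hsv⟩
  obtain ⟨W, hWc, hUW, hpair, hends⟩ := exists_ends hcS hcU
  have hoth : ∀ s v, InC G s v → v ∉ W → ∃ i, cl G s = cl G (c i) := by
    intro s v hsv hv
    by_contra hcon
    push Not at hcon
    exact hv (other_subset hcS hcU hUW hpair hends hsv.seed hcon (mem_cl.2 hsv))
  let M : Fin (T.choose 3) → Finset V := fun i =>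
    (cl G (c i)).filter fun v => ((cl G (c i)).filter fun x => x < v).card < 4
  have hmin : ∀ (r : ℕ) (s : Fin 14 → V) (v : V), r ≤ 4 → v ∉ W → InC G s v →
      (¬ ∃ a : Fin r → V, Injective a ∧ ∀ i, InC G s (a i) ∧ a i < v) →
      v ∈ Finset.univ.biUnion M := by
    intro r s v hr hvW hs h
    obtain ⟨i, hi⟩ := hoth s v hs hvW
    refine Finset.mem_biUnion.2 ⟨i, Finset.mem_univ _,
      Finset.mem_filter.2 ⟨by rw [← hi]; exact mem_cl.2 hs, ?_⟩⟩
    by_contra hcon
    obtain ⟨Y, hY, hY3⟩ := Finset.exists_subset_card_eq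
      (show r ≤ ((cl G (c i)).filter fun x => x < v).card by omega)
    let e := (Finset.equivFinOfCardEq hY3).symm
    refine h ⟨fun l => (e l : V), fun l l' hl => e.injective (Subtype.ext hl), fun l => ?_⟩
    have h1 := Finset.mem_filter.1 (hY (e l).2)
    rw [← hi, mem_cl] at h1
    exact h1
  have hsub : S ⊆ W ∪ Finset.univ.biUnion M := by
    intro v hv
    by_cases hvW : v ∈ W
    · exact Finset.mem_union_left _ hvW
    rcases hS v hv with (h | ⟨s, t, hs, ht, u, hu, hu'⟩ | ⟨u, hvu, h⟩ | ⟨s, hs, h⟩) | ⟨s, hs, h⟩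
    · refine Finset.mem_union_left _ (hUW ?_)
      by_contra hcon
      obtain ⟨i, hi⟩ := hcU v hcon
      exact h _ hi
    · obtain ⟨i, hi⟩ := hoth s v hs hvW
      obtain ⟨j, hj⟩ := hoth t v ht hvW
      refine Finset.mem_union_left _ (hpair i j ?_ v ?_ ?_)
      · rw [← hi, ← hj]
        intro h
        exact hu' (mem_cl.1 (h ▸ mem_cl.2 hu))
      · rw [← mem_cl, ← hi, mem_cl]
        exact hs
      · rw [← mem_cl, ← hj, mem_cl]
        exact ht
    · exact Finset.mem_union_left _ (hends v u hvu fun i => h (c i))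
    · exact Finset.mem_union_right _ (hmin 3 s v (by norm_num) hvW hs h)
    · exact Finset.mem_union_right _ (hmin 4 s v le_rfl hvW hs h)
  refine (Finset.card_le_card hsub).trans ((Finset.card_union_le _ _).trans ?_)
  have h1 : (Finset.univ.biUnion M).card ≤ 4 * T.choose 3 := by
    refine Finset.card_biUnion_le.trans ((Finset.sum_le_card_nsmul _ _ 4 fun i _ =>
      card_first_le _ 4).trans ?_)
    simp [mul_comm]
  have h3 : T.choose 3 * U.card ≤ T.choose 3 * T := Nat.mul_le_mul_left _ hUT.le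
  unfold kb
  omega

end

variable {n : ℕ} {G : SimpleGraph (Fin n)}

theorem exists_isKer4 {K : ℕ}
    (hK : ∀ S : Finset (Fin n), (∀ v ∈ S, Ker4 G v) → S.card ≤ K) :
    ∃ m ≤ K, ∃ (H : SimpleGraph (Fin m)) (w : Fin m → Fin n), IsKer4 G H w := by
  classical
  set S : Finset (Fin n) := Finset.univ.filter fun v => Ker4 G v with hS
  have hcard : S.card ≤ K := hK S fun v hv => (Finset.mem_filter.1 hv).2
  refine ⟨S.card, hcard, kgraph G (S.orderEmbOfFin rfl), S.orderEmbOfFin rfl,
    (S.orderEmbOfFin rfl).strictMono, fun v => ?_, fun a b => ?_⟩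
  · have h1 : v ∈ Set.range (S.orderEmbOfFin rfl) ↔ v ∈ S := by
      rw [S.range_orderEmbOfFin rfl]; rfl
    rw [← Set.mem_range, h1, hS]
    simp
  · unfold KAdj
    rw [(S.orderEmbOfFin rfl).injective.ne_iff]
    exact Iff.rfl

/-- Accepted graphs are generically rigid. -/
theorem AccU.rigid (hn : 4 ≤ n) (h : AccU G) : Pool.Agent.H26R.GenericallyRigid G := by
  obtain ⟨m, H, w, hw, q, hq, -, p, hp⟩ := h
  have hc : 4 ≤ Fintype.card (Fin n) := by rwa [Fintype.card_fin]
  have hm : 4 ≤ m := hw.four_le hc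
  have hcm : 4 ≤ Fintype.card (Fin m) := by rwa [Fintype.card_fin]
  obtain ⟨k', hG⟩ := hw.data
  obtain ⟨P, hP⟩ := real_of_mod hq hp
  have h1 : Pool.Agent.H26R.GenericallyRigid H := generic_of_prr hm hP
  rw [genericallyRigid_iff_dense hc, MP_37c7bf_co_h54dm.Data.generic hc hG,
    ← genericallyRigid_iff_dense hcm]
  exact h1

/-- Generically rigid graphs in the class are accepted. -/
theorem accU_of_rigid (hn : 4 ≤ n) {T : ℕ} (hT : Star G T) (hTn : T < n)
    (hb : ((kb T) ^ 8) ^ (3 * kb T) < n) (h : Pool.Agent.H26R.GenericallyRigid G) : AccU G := by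
  have hc : 4 ≤ Fintype.card (Fin n) := by rwa [Fintype.card_fin]
  obtain ⟨m, hmK, H, w, hw⟩ := exists_isKer4 (G := G) (K := kb T) fun S hS =>
    card_ker4_le hT (by rwa [Fintype.card_fin]) hS
  have hm : 4 ≤ m := hw.four_le hc
  have hcm : 4 ≤ Fintype.card (Fin m) := by rwa [Fintype.card_fin]
  obtain ⟨k', hG⟩ := hw.data
  have h1 : Pool.Agent.H26R.GenericallyRigid H := by
    rw [genericallyRigid_iff_dense hcm, ← MP_37c7bf_co_h54dm.Data.generic hc hG,
      ← genericallyRigid_iff_dense hc]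
    exact h
  obtain ⟨q, hqm, hq, p, hp⟩ := (generic_iff_mod hm).1 h1
  refine ⟨m, H, w, hw, q, hq, ?_, p, hp⟩
  calc (q + 1) ^ (3 * m) ≤ (m ^ 8) ^ (3 * m) := Nat.pow_le_pow_left hqm _
    _ ≤ ((kb T) ^ 8) ^ (3 * m) := Nat.pow_le_pow_left (Nat.pow_le_pow_left hmK _) _
    _ ≤ ((kb T) ^ 8) ^ (3 * kb T) :=
        Nat.pow_le_pow_right (pow_pos (by omega) _) (Nat.mul_le_mul_left _ hmK)
    _ < n := hb

end Pool.Agent.Lib.MP_37c7bf_co_h77dm
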