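import Pool.Agent.Lib.MP_37c7bf_co_h77dm.Defs

/-!
# Existence of kernel data
-/

namespace Pool.Agent.Lib.MP_37c7bf_co_h77dm

open Function

section
variable {V : Type*} [Fintype V] [DecidableEq V] {G : SimpleGraph V}

open Classical in
/-- The cluster of a seed. -/
noncomputable def cl (G : SimpleGraph V) (s : Fin 14 → V) : Finset V :=
  Finset.univ.filter fun v => InC G s v

omit [DecidableEq V] in
@[simp] theorem mem_cl {s : Fin 14 → V} {v : V} : v ∈ cl G s ↔ InC G s v := by
  simp [cl]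

omit [DecidableEq V] in
theorem cl_eq_of_glue {s t : Fin 14 → V} (hs : Seed G s) (ht : Seed G t)
    (h : Glue G (InC G s) (InC G t)) : cl G s = cl G t := by
  ext v
  rw [mem_cl, mem_cl]
  exact ⟨fun hv => InC.glue ht h.symm hv, fun hv => InC.glue hs h hv⟩

omit [Fintype V] [DecidableEq V] in
/-- Three common vertices glue. -/
theorem glue_of_three {S T : V → Prop} {X : Finset V} (hX : 3 ≤ X.card)
    (h : ∀ x ∈ X, S x ∧ T x) : Glue G S T := by
  obtain ⟨Y, hY, hY3⟩ := Finset.exists_subset_card_eq hX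
  let e := (Finset.equivFinOfCardEq hY3).symm
  have h0 : IsEmpty (Fin ((4 - ((3 : Fin 4) : ℕ)).choose 2)) := by
    have : (4 - ((3 : Fin 4) : ℕ)).choose 2 = 0 := rfl
    rw [this]
    infer_instance
  refine ⟨3, fun l => (e l : V), fun l => h0.elim l, fun l => h0.elim l, ?_, ?_, fun l => h0.elim l,
    fun l => h0.elim l, fun l => h0.elim l, fun l => h0.elim l, fun l => h0.elim l,
    fun l => h0.elim l⟩
  · intro l l' hl
    exact e.injective (Subtype.ext hl)
  · intro l
    exact h _ (hY (e l).2)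

theorem card_inter_le {s t : Fin 14 → V} (hs : Seed G s) (ht : Seed G t)
    (h : cl G s ≠ cl G t) : (cl G s ∩ cl G t).card ≤ 2 := by
  by_contra hcon
  refine h (cl_eq_of_glue hs ht (glue_of_three (X := cl G s ∩ cl G t) (by omega) ?_))
  intro x hx
  simpa using hx

omit [DecidableEq V] in
/-- A vertex outside a cluster has at most two neighbours in it. -/
theorem card_nbrs_le [DecidableRel G.Adj] {s : Fin 14 → V} (hs : Seed G s) {v : V}
    (hv : v ∉ cl G s) : ((cl G s).filter fun w => G.Adj v w).card ≤ 2 := by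
  by_contra hcon
  obtain ⟨Y, hY, hY3⟩ := Finset.exists_subset_card_eq
    (show 3 ≤ ((cl G s).filter fun w => G.Adj v w).card by omega)
  let e := (Finset.equivFinOfCardEq hY3).symm
  refine hv (mem_cl.2 (InC.add hs ⟨fun l => (e l : V), ?_, ?_⟩))
  · intro l l' hl
    exact e.injective (Subtype.ext hl)
  · intro l
    have := hY (e l).2
    simpa using this

/-- The edges between `A \ B` and `B \ A`. -/
def crs (G : SimpleGraph V) [DecidableRel G.Adj] (A B : Finset V) : Finset (V × V) :=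
  ((A \ B) ×ˢ (B \ A)).filter fun e => G.Adj e.1 e.2

omit [Fintype V] in
theorem mem_crs [DecidableRel G.Adj] {A B : Finset V} {e : V × V} :
    e ∈ crs G A B ↔ (e.1 ∈ A ∧ e.1 ∉ B) ∧ (e.2 ∈ B ∧ e.2 ∉ A) ∧ G.Adj e.1 e.2 := by
  simp [crs, and_assoc]

omit [Fintype V] in
theorem three_of_card_le_two {s : Finset V} {a b c : V} (ha : a ∈ s) (hb : b ∈ s) (hc : c ∈ s)
    (hs : s.card ≤ 2) (hab : a ≠ b) (hac : a ≠ c) (hbc : b ≠ c) : False := by
  have hsub : ({a, b, c} : Finset V) ⊆ s := by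
    intro x hx
    simp only [Finset.mem_insert, Finset.mem_singleton] at hx
    rcases hx with rfl | rfl | rfl <;> assumption
  have := Finset.card_le_card hsub
  rw [Finset.card_eq_three.2 ⟨a, b, c, hab, hac, hbc, rfl⟩] at this
  omega

theorem card_crs_lt [DecidableRel G.Adj] {s t : Fin 14 → V} (hs : Seed G s) (ht : Seed G t)
    (h : cl G s ≠ cl G t) :
    (crs G (cl G s) (cl G t)).card < (4 - (cl G s ∩ cl G t).card).choose 2 := by
  by_contra hcon
  push Not at hcon
  have h2 := card_inter_le hs ht h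
  have h4 : (cl G s ∩ cl G t).card < 4 := by omega
  obtain ⟨F, hF, hFc⟩ := Finset.exists_subset_card_eq hcon
  let e := (Finset.equivFinOfCardEq hFc).symm
  let d := (Finset.equivFinOfCardEq (s := cl G s ∩ cl G t) rfl).symm
  have he : ∀ l, ((e l : V × V).1 ∈ cl G s ∧ (e l : V × V).1 ∉ cl G t) ∧
      ((e l : V × V).2 ∈ cl G t ∧ (e l : V × V).2 ∉ cl G s) ∧ G.Adj (e l : V × V).1 (e l : V × V).2 :=
    fun l => mem_crs.1 (hF (e l).2)
  have hd : ∀ l, (d l : V) ∈ cl G s ∧ (d l : V) ∈ cl G t := fun l => Finset.mem_inter.1 (d l).2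
  have hinj : ∀ l l', l ≠ l' → ¬ ((e l : V × V).1 = (e l' : V × V).1 ∧
      (e l : V × V).2 = (e l' : V × V).2) := by
    intro l l' hl h
    exact hl (e.injective (Subtype.ext (Prod.ext h.1 h.2)))
  refine h (cl_eq_of_glue hs ht ⟨⟨_, h4⟩, fun l => (d l : V), fun l => (e l : V × V).1,
    fun l => (e l : V × V).2, ?_, ?_, ?_, ?_, ?_, hinj, ?_, ?_⟩)
  · intro l l' hl
    exact d.injective (Subtype.ext hl)
  · intro l
    exact ⟨mem_cl.1 (hd l).1, mem_cl.1 (hd l).2⟩
  · intro l
    exact ⟨mem_cl.1 (he l).1.1, mem_cl.1 (he l).2.1.1, (he l).2.2⟩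
  · intro i l
    constructor
    · intro h
      have h : (e i : V × V).1 = d l := h
      exact (he i).1.2 (h ▸ (hd l).2)
    · intro h
      have h : (e i : V × V).2 = d l := h
      exact (he i).2.1.2 (h ▸ (hd l).1)
  · intro i i' h
    have h : (e i : V × V).1 = (e i' : V × V).2 := h
    exact (he i).1.2 (h ▸ (he i').2.1.1)
  · intro i i' i'' h1 h2 h3 h
    have h : (e i : V × V).1 = (e i' : V × V).1 ∧ (e i : V × V).1 = (e i'' : V × V).1 := h
    refine three_of_card_le_two (s := (cl G t).filter fun w => G.Adj (e i : V × V).1 w)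
      (a := (e i : V × V).2) (b := (e i' : V × V).2) (c := (e i'' : V × V).2) ?_ ?_ ?_
      (card_nbrs_le ht (he i).1.2) ?_ ?_ ?_
    · exact Finset.mem_filter.2 ⟨(he i).2.1.1, (he i).2.2⟩
    · refine Finset.mem_filter.2 ⟨(he i').2.1.1, ?_⟩
      rw [h.1]
      exact (he i').2.2
    · refine Finset.mem_filter.2 ⟨(he i'').2.1.1, ?_⟩
      rw [h.2]
      exact (he i'').2.2
    · exact fun h' => hinj _ _ h1 ⟨h.1, h'⟩
    · exact fun h' => hinj _ _ h2 ⟨h.2, h'⟩
    · exact fun h' => hinj _ _ h3 ⟨h.1.symm.trans h.2, h'⟩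
  · intro i i' i'' h1 h2 h3 h
    have h : (e i : V × V).2 = (e i' : V × V).2 ∧ (e i : V × V).2 = (e i'' : V × V).2 := h
    refine three_of_card_le_two (s := (cl G s).filter fun w => G.Adj (e i : V × V).2 w)
      (a := (e i : V × V).1) (b := (e i' : V × V).1) (c := (e i'' : V × V).1) ?_ ?_ ?_
      (card_nbrs_le hs (he i).2.1.2) ?_ ?_ ?_
    · exact Finset.mem_filter.2 ⟨(he i).1.1, (he i).2.2.symm⟩
    · refine Finset.mem_filter.2 ⟨(he i').1.1, ?_⟩
      rw [h.1]
      exact (he i').2.2.symm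
    · refine Finset.mem_filter.2 ⟨(he i'').1.1, ?_⟩
      rw [h.2]
      exact (he i'').2.2.symm
    · exact fun h' => hinj _ _ h1 ⟨h', h.1⟩
    · exact fun h' => hinj _ _ h2 ⟨h', h.2⟩
    · exact fun h' => hinj _ _ h3 ⟨h', h.1.symm.trans h.2⟩

theorem card_piece_le [DecidableRel G.Adj] {s t : Fin 14 → V} (hs : Seed G s) (ht : Seed G t)
    (h : cl G s ≠ cl G t) :
    ((cl G s ∩ cl G t) ∪ (crs G (cl G s) (cl G t)).image Prod.fst).card ≤ 5 := by
  have h1 := card_crs_lt hs ht h
  have h2 := card_inter_le hs ht h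
  refine (Finset.card_union_le _ _).trans ((Nat.add_le_add_left Finset.card_image_le _).trans ?_)
  interval_cases hc : (cl G s ∩ cl G t).card
  · have : (4 - 0).choose 2 = 6 := rfl
    omega
  · have : (4 - 1).choose 2 = 3 := rfl
    omega
  · have : (4 - 2).choose 2 = 1 := rfl
    omega

/-- Greedy choice of the exceptional vertices. -/
theorem exists_exceptional {T : ℕ} (hT : Star G T) : ∃ U : Finset V, U.card < T ∧
    ∀ v, v ∉ U → ∃ s, Seed G s ∧ InC G s v ∧ 3 ≤ (cl G s ∩ U).card := by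
  classical
  obtain ⟨U, hU, hmax⟩ := Finset.exists_max_image
    (Finset.univ.filter fun U : Finset V => ∀ s, Seed G s → (cl G s ∩ U).card ≤ 3) Finset.card
    ⟨∅, by simp⟩
  simp only [Finset.mem_filter, Finset.mem_univ, true_and] at hU hmax
  refine ⟨U, ?_, ?_⟩
  · by_contra hcon
    push Not at hcon
    obtain ⟨s, hs, hsU⟩ := hT U hcon
    have h4 : ({s 10, s 11, s 12, s 13} : Finset V) ⊆ cl G s ∩ U := by
      intro x hx
      simp only [Finset.mem_insert, Finset.mem_singleton] at hx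
      rcases hx with rfl | rfl | rfl | rfl
      all_goals exact Finset.mem_inter.2 ⟨mem_cl.2 (hs.inC _), hsU _ (by decide)⟩
    have h5 := Finset.card_le_card h4
    have h6 : ({s 10, s 11, s 12, s 13} : Finset V).card = 4 := by
      rw [Finset.card_insert_of_notMem, Finset.card_insert_of_notMem,
        Finset.card_insert_of_notMem, Finset.card_singleton]
      all_goals
        simp only [Finset.mem_insert, Finset.mem_singleton, hs.1.eq_iff]
        decide
    have := hU s hs
    omega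
  · intro v hv
    by_contra hcon
    push Not at hcon
    have hins : ∀ s, Seed G s → (cl G s ∩ insert v U).card ≤ 3 := by
      intro s hs
      by_cases hvs : InC G s v
      · have := hcon s hs hvs
        rw [Finset.inter_insert_of_mem (mem_cl.2 hvs)]
        exact (Finset.card_insert_le _ _).trans (by omega)
      · rw [Finset.inter_insert_of_notMem (by simpa using hvs)]
        exact hU s hs
    have := hmax _ hins
    rw [Finset.card_insert_of_notMem hv] at this
    omega

/-- Few clusters cover the other vertices. -/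
theorem exists_seeds {U : Finset V}
    (hU : ∀ v, v ∉ U → ∃ s, Seed G s ∧ InC G s v ∧ 3 ≤ (cl G s ∩ U).card) :
    ∃ 𝒮 : Finset (Fin 14 → V), (∀ s ∈ 𝒮, Seed G s) ∧ 𝒮.card ≤ U.card.choose 3 ∧
      ∀ v, v ∉ U → ∃ s ∈ 𝒮, InC G s v := by
  classical
  have hex : ∀ τ ∈ (U.powersetCard 3).filter fun τ => ∃ s, Seed G s ∧ τ ⊆ cl G s,
      ∃ s, Seed G s ∧ τ ⊆ cl G s := fun τ hτ => (Finset.mem_filter.1 hτ).2
  rcases isEmpty_or_nonempty V with hV | hV
  · exact ⟨∅, by simp, by simp, fun v => hV.elim v⟩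
  choose! f hf using hex
  refine ⟨((U.powersetCard 3).filter fun τ => ∃ s, Seed G s ∧ τ ⊆ cl G s).image f, ?_, ?_, ?_⟩
  · intro s hs
    obtain ⟨τ, hτ, rfl⟩ := Finset.mem_image.1 hs
    exact (hf τ hτ).1
  · refine Finset.card_image_le.trans ((Finset.card_filter_le _ _).trans ?_)
    rw [Finset.card_powersetCard]
  · intro v hv
    obtain ⟨s, hs, hvs, h3⟩ := hU v hv
    obtain ⟨τ, hτ, hτ3⟩ := Finset.exists_subset_card_eq h3
    have hτs : τ ⊆ cl G s := fun x hx => (Finset.mem_inter.1 (hτ hx)).1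
    have hτm : τ ∈ (U.powersetCard 3).filter fun τ => ∃ s, Seed G s ∧ τ ⊆ cl G s :=
      Finset.mem_filter.2 ⟨Finset.mem_powersetCard.2
        ⟨fun x hx => (Finset.mem_inter.1 (hτ hx)).2, hτ3⟩, s, hs, hτs⟩
    refine ⟨f τ, Finset.mem_image_of_mem f hτm, ?_⟩
    obtain ⟨h1, h2⟩ := hf τ hτm
    have : cl G s = cl G (f τ) := by
      refine cl_eq_of_glue hs h1 (glue_of_three (X := τ) hτ3.ge ?_)
      intro x hx
      exact ⟨mem_cl.1 (hτs hx), mem_cl.1 (h2 hx)⟩
    rw [← mem_cl, ← this, mem_cl]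
    exact hvs

theorem exists_enum {α : Type*} {𝒮 : Finset α} {k : ℕ} (h0 : 𝒮.Nonempty) (hk : 𝒮.card ≤ k) :
    ∃ c : Fin k → α, (∀ i, c i ∈ 𝒮) ∧ ∀ s ∈ 𝒮, ∃ i, c i = s := by
  classical
  obtain ⟨s₀, hs₀⟩ := h0
  refine ⟨fun i => if h : (i : ℕ) < 𝒮.card then (𝒮.equivFin.symm ⟨i, h⟩ : α) else s₀, ?_, ?_⟩
  · intro i
    dsimp only
    split_ifs with h
    · exact (𝒮.equivFin.symm ⟨i, h⟩).2
    · exact hs₀
  · intro s hs
    refine ⟨⟨𝒮.equivFin ⟨s, hs⟩, (𝒮.equivFin ⟨s, hs⟩).2.trans_le hk⟩, ?_⟩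
    simp

/-- The kernel data. -/
theorem exists_data_of_cover {k : ℕ} {c : Fin k → Fin 14 → V} (hc : ∀ i, Seed G (c i))
    {U : Finset V} (hU : ∀ v, v ∉ U → ∃ i, InC G (c i) v) :
    ∃ m ≤ U.card + 3 * k + 5 * (k * k) + 2 * (k * U.card), ∃ H : SimpleGraph (Fin m),
      Data G k H := by
  classical
  have hT : ∀ i, ∃ T ⊆ cl G (c i), T.card = 3 := by
    intro i
    refine Finset.exists_subset_card_eq ?_
    have h14 : (Finset.univ.image (c i)).card = 14 := by
      rw [Finset.card_image_of_injective _ (hc i).1]; rfl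
    have : Finset.univ.image (c i) ⊆ cl G (c i) := by
      intro x hx
      obtain ⟨j, -, rfl⟩ := Finset.mem_image.1 hx
      exact mem_cl.2 ((hc i).inC j)
    have := Finset.card_le_card this
    omega
  choose T hTc hT3 using hT
  let P : Fin k × Fin k → Finset V := fun q => if cl G (c q.1) = cl G (c q.2) then ∅ else
    (cl G (c q.1) ∩ cl G (c q.2)) ∪ (crs G (cl G (c q.1)) (cl G (c q.2))).image Prod.fst
  let Q : Fin k × V → Finset V := fun q => if q.2 ∈ cl G (c q.1) then ∅ else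
    (cl G (c q.1)).filter fun w => G.Adj q.2 w
  set W : Finset V := U ∪ Finset.univ.biUnion T ∪ Finset.univ.biUnion P ∪
    (Finset.univ ×ˢ U).biUnion Q with hW
  have hWU : ∀ v ∈ U, v ∈ W := fun v hv => by simp [hW, hv]
  have hWT : ∀ i, ∀ v ∈ T i, v ∈ W := fun i v hv => by
    rw [hW]
    exact Finset.mem_union_left _ (Finset.mem_union_left _ (Finset.mem_union_right _
      (Finset.mem_biUnion.2 ⟨i, Finset.mem_univ _, hv⟩)))
  have hWP : ∀ q, ∀ v ∈ P q, v ∈ W := fun q v hv => by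
    rw [hW]
    exact Finset.mem_union_left _ (Finset.mem_union_right _
      (Finset.mem_biUnion.2 ⟨q, Finset.mem_univ _, hv⟩))
  have hWQ : ∀ i, ∀ x ∈ U, ∀ v ∈ Q (i, x), v ∈ W := fun i x hx v hv => by
    rw [hW]
    exact Finset.mem_union_right _ (Finset.mem_biUnion.2 ⟨(i, x), by simp [hx], hv⟩)
  have hcard : W.card ≤ U.card + 3 * k + 5 * (k * k) + 2 * (k * U.card) := by
    rw [hW]
    refine (Finset.card_union_le _ _).trans (Nat.add_le_add ((Finset.card_union_le _ _).trans
      (Nat.add_le_add ((Finset.card_union_le _ _).trans (Nat.add_le_add le_rfl ?_)) ?_)) ?_)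
    · refine Finset.card_biUnion_le.trans
        ((Finset.sum_le_card_nsmul _ _ 3 fun i _ => (hT3 i).le).trans ?_)
      simp [mul_comm]
    · refine Finset.card_biUnion_le.trans
        ((Finset.sum_le_card_nsmul _ _ 5 fun q _ => ?_).trans ?_)
      · dsimp only [P]
        split_ifs with h
        · simp
        · exact card_piece_le (hc _) (hc _) h
      · simp [mul_comm]
    · refine Finset.card_biUnion_le.trans
        ((Finset.sum_le_card_nsmul _ _ 2 fun q _ => ?_).trans ?_)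
      · dsimp only [Q]
        split_ifs with h
        · simp
        · exact card_nbrs_le (hc _) h
      · simp [mul_comm]
  let e := W.equivFin.symm
  have hrange : ∀ v, (∃ l, (e l : V) = v) ↔ v ∈ W := by
    intro v
    constructor
    · rintro ⟨l, rfl⟩
      exact (e l).2
    · intro hv
      exact ⟨W.equivFin ⟨v, hv⟩, by simp [e]⟩
  refine ⟨W.card, hcard, ⟨fun a b => a ≠ b ∧ (G.Adj (e a) (e b) ∨
    ∃ i, InC G (c i) (e a) ∧ InC G (c i) (e b)), ⟨fun a b h => ⟨h.1.symm, h.2.imp (fun h => h.symm)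
      fun ⟨i, h1, h2⟩ => ⟨i, h2, h1⟩⟩⟩, ⟨fun a h => h.1 rfl⟩⟩, c, fun l => (e l : V), hc, ?_, ?_, ?_,
      ?_, ?_, fun a b => Iff.rfl⟩
  · intro l l' h
    exact e.injective (Subtype.ext h)
  · intro v
    by_cases hv : v ∈ U
    · exact Or.inl ((hrange v).2 (hWU v hv))
    · exact Or.inr (hU v hv)
  · intro i
    let d := (Finset.equivFinOfCardEq (hT3 i)).symm
    refine ⟨fun l => W.equivFin ⟨(d l : V), hWT i _ (d l).2⟩, ?_, ?_⟩
    · intro l l' h
      have := W.equivFin.injective h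
      exact d.injective (Subtype.ext (congrArg (fun x : W => (x : V)) this))
    · intro l
      have : (e (W.equivFin ⟨(d l : V), hWT i _ (d l).2⟩) : V) = d l := by simp [e]
      dsimp only
      rw [this]
      exact mem_cl.1 (hTc i (d l).2)
  · intro i j hij v hi hj
    rw [hrange]
    have hne : cl G (c i) ≠ cl G (c j) := by
      obtain ⟨x, hx, hx'⟩ := hij
      intro h
      rw [← mem_cl, h, mem_cl] at hx
      exact hx' hx
    refine hWP (i, j) v ?_
    dsimp only [P]
    rw [if_neg hne]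
    exact Finset.mem_union_left _ (Finset.mem_inter.2 ⟨mem_cl.2 hi, mem_cl.2 hj⟩)
  · have key : ∀ u v, G.Adj u v → (∀ i, ¬ (InC G (c i) u ∧ InC G (c i) v)) → u ∈ W := by
      intro u v huv hno
      by_cases hu : u ∈ U
      · exact hWU u hu
      obtain ⟨i, hi⟩ := hU u hu
      have hvi : v ∉ cl G (c i) := fun h => hno i ⟨hi, mem_cl.1 h⟩
      by_cases hv : v ∈ U
      · refine hWQ i v hv u ?_
        dsimp only [Q]
        rw [if_neg hvi]
        exact Finset.mem_filter.2 ⟨mem_cl.2 hi, huv.symm⟩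
      obtain ⟨j, hj⟩ := hU v hv
      have huj : u ∉ cl G (c j) := fun h => hno j ⟨mem_cl.1 h, hj⟩
      have hne : cl G (c i) ≠ cl G (c j) := by
        intro h
        exact hvi (h ▸ mem_cl.2 hj)
      refine hWP (i, j) u ?_
      dsimp only [P]
      rw [if_neg hne]
      refine Finset.mem_union_right _ (Finset.mem_image.2 ⟨(u, v), ?_, rfl⟩)
      exact mem_crs.2 ⟨⟨mem_cl.2 hi, huj⟩, ⟨mem_cl.2 hj, hvi⟩, huv⟩
    intro u v huv
    by_cases hno : ∃ i, InC G (c i) u ∧ InC G (c i) v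
    · exact Or.inl hno
    · push Not at hno
      exact Or.inr ⟨(hrange u).2 (key u v huv fun i h => hno i h.1 h.2),
        (hrange v).2 (key v u huv.symm fun i h => hno i h.2 h.1)⟩

end

/-- **Kernel data exist** for all large graphs in which among any `T` vertices some four have ten
common neighbours. -/
theorem exists_data (T : ℕ) : ∃ k K n₀ : ℕ, ∀ (n : ℕ) (G : SimpleGraph (Fin n)), n₀ < n →
    Star G T → ∃ (m : Fin (K + 1)) (H : SimpleGraph (Fin m)), Data G k H := by
  refine ⟨T.choose 3, T + 3 * T.choose 3 + 5 * (T.choose 3 * T.choose 3) + 2 * (T.choose 3 * T), T,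
    fun n G hn hT => ?_⟩
  obtain ⟨U, hUT, hU⟩ := exists_exceptional hT
  obtain ⟨𝒮, h𝒮, hcard, hcov⟩ := exists_seeds hU
  have hne : 𝒮.Nonempty := by
    obtain ⟨v, hv⟩ : ∃ v, v ∉ U := by
      by_contra hcon
      push Not at hcon
      have : Fintype.card (Fin n) ≤ U.card := by
        rw [← Finset.card_univ]
        exact Finset.card_le_card fun x _ => hcon x
      rw [Fintype.card_fin] at this
      omega
    obtain ⟨s, hs, -⟩ := hcov v hv
    exact ⟨s, hs⟩
  obtain ⟨c, hc, hc'⟩ := exists_enum hne (hcard.trans (Nat.choose_le_choose 3 hUT.le))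
  obtain ⟨m, hm, H, hH⟩ := exists_data_of_cover (c := c) (fun i => h𝒮 _ (hc i)) (U := U) (by
    intro v hv
    obtain ⟨s, hs, hsv⟩ := hcov v hv
    obtain ⟨i, rfl⟩ := hc' s hs
    exact ⟨i, hsv⟩)
  refine ⟨⟨m, ?_⟩, H, hH⟩
  have h1 : 2 * (T.choose 3 * U.card) ≤ 2 * (T.choose 3 * T) :=
    Nat.mul_le_mul_left _ (Nat.mul_le_mul_left _ hUT.le)
  omega

end Pool.Agent.Lib.MP_37c7bf_co_h77dm
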