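import Pool.Agent.Lib.MP_37c7bf_co_h77dm.Canon
import Pool.Agent.Lib.MP_37c7bf_co_h77dm.Final
import Pool.Agent.Lib.MP_37c7bf_co_h74dm.MachineK
import Pool.Agent.Lib.FOLFPd_h54.Poly

/-!
# Fixed-parameter recognition of generic rigidity for dense graphs
-/

open Turing Pool.Agent.Lib.FOLFP

namespace Pool.Agent.Lib.MP_37c7bf_co_h77dm

open Function

open MP_37c7bf_co_h91dm (genericallyRigid_iff_dense)

open Classical in
/-- A polynomial-time Turing machine for the graphs in which every independent set contains at most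
`k` vertices of degree less than `ε n`; the degree of the polynomial does not depend on `ε` and
`k`. -/
theorem mainK : ∃ d : ℕ, ∀ (ε : ℝ), 0 < ε → ∀ k : ℕ,
    ∃ (f : Graph → List Bool) (M : TM2ComputableInPolyTime Graph.encode id f),
      M.time.natDegree ≤ d ∧ (∀ k, Finite (M.tm.Γ k)) ∧
      (∀ I : Graph, Few I.G ε k → f I = [decide (Pool.Agent.H26R.GenericallyRigid I.G)]) ∧
      ∀ I : Graph, f I = [true] → Pool.Agent.H26R.GenericallyRigid I.G := by
  obtain ⟨d, hd⟩ := MP_37c7bf_co_h74dm.machineK Pool.Agent.Lib.FOLFPd.polytimeDeg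
  refine ⟨d, fun ε hε k => ?_⟩
  obtain ⟨T, n₁, hT⟩ := MP_37c7bf_co_h82dm.star_of_few ε hε k
  obtain ⟨f, M, hdeg, hfin, hf⟩ := hd (kerBound T + n₁ + T)
    (fun m G => Pool.Agent.H26R.GenericallyRigid G)
    (fun m H => Pool.Agent.MP_37c7bf_co_Dense.GenericallyRigid H)
  have hacc : ∀ I : Graph, 3 < I.n → AccK (fun m H =>
      Pool.Agent.MP_37c7bf_co_Dense.GenericallyRigid H) (kerBound T + n₁ + T) I.G →
      Pool.Agent.H26R.GenericallyRigid I.G := by
    rintro I hn ⟨m, H, hH, w, hw⟩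
    have hc : 4 ≤ Fintype.card (Fin I.n) := by rw [Fintype.card_fin]; omega
    obtain ⟨k', hG⟩ := hw.data
    rw [genericallyRigid_iff_dense hc, MP_37c7bf_co_h54dm.Data.generic hc hG]
    exact hH
  have hsound : ∀ I : Graph, f I = [true] → Pool.Agent.H26R.GenericallyRigid I.G := by
    intro I hI
    obtain ⟨b, hb, hb2⟩ := hf I
    rw [hI] at hb
    obtain rfl : b = true := by simpa using hb.symm
    rcases hb2.1 rfl with ⟨-, h⟩ | ⟨hn, h⟩
    · exact h
    · exact hacc I hn h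
  refine ⟨f, M, hdeg, hfin, fun I hI => ?_, hsound⟩
  obtain ⟨b, hb, hb2⟩ := hf I
  have hiff : b = true ↔ Pool.Agent.H26R.GenericallyRigid I.G := by
    refine ⟨fun h => hsound I (by rw [hb, h]), fun h => hb2.2 ?_⟩
    rcases Nat.lt_or_ge 3 I.n with hn | hn
    · refine Or.inr ⟨hn, ?_⟩
      obtain ⟨m, H, w, hw⟩ := exists_isKer T n₁ I.n I.G fun h => hT I.n I.G h hI
      obtain ⟨k', hH⟩ := hw.data
      have hc : 4 ≤ Fintype.card (Fin I.n) := by rw [Fintype.card_fin]; omega
      exact ⟨m, H, (MP_37c7bf_co_h54dm.Data.generic hc hH).1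
        ((genericallyRigid_iff_dense hc _).1 h), w, hw⟩
    · exact Or.inl ⟨hn, h⟩
  rw [hb]
  congr 1
  rcases b with _ | _
  · have : ¬ Pool.Agent.H26R.GenericallyRigid I.G := fun h => Bool.false_ne_true (hiff.2 h)
    simp [this]
  · simp [hiff.1 rfl]

end Pool.Agent.Lib.MP_37c7bf_co_h77dm
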