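import Pool.Agent.Lib.MP_37c7bf_co_h77dm.Uni2
import Pool.Agent.Lib.MP_37c7bf_co_h74dm.MachineU
import Pool.Agent.Lib.MP_37c7bf_co_h91u.Asym

/-!
# One polynomial-time machine for all dense graphs
-/

open Turing Pool.Agent.Lib.FOLFP

namespace Pool.Agent.Lib.MP_37c7bf_co_h77dm

open Function

open MP_37c7bf_co_h91u (lv)

/-- Every independent set of vertices of degree less than `n / 2 ^ l`, `l = lv n`, has at most `l`
elements. -/
def FewU {n : ℕ} (G : SimpleGraph (Fin n)) : Prop :=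
  ∀ S : Finset (Fin n), G.IsIndepSet S →
    (∀ v ∈ S, 2 ^ lv n * (G.neighborSet v).ncard < n) → S.card ≤ lv n

theorem lv_mono {m n : ℕ} (h : m ≤ n) : lv m ≤ lv n :=
  Nat.div_le_div_right (Nat.log_mono_right (Nat.log_mono_right h))

theorem le_lv (k : ℕ) : ∃ n₀, ∀ n ≥ n₀, k ≤ lv n := by
  refine ⟨2 ^ 2 ^ (10 * k), fun n hn => le_trans ?_ (lv_mono hn)⟩
  unfold lv
  rw [Nat.log_pow (by norm_num), Nat.log_pow (by norm_num)]
  omega

/-- For fixed `ε > 0` and `k` all sufficiently large graphs in which every independent set of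
vertices of degree less than `ε n` has at most `k` elements are in the uniform class. -/
theorem fewU_of_few (ε : ℝ) (hε : 0 < ε) (k : ℕ) : ∃ n₀ : ℕ, ∀ n ≥ n₀,
    ∀ G : SimpleGraph (Fin n), (∀ S : Finset (Fin n), G.IsIndepSet S →
      (∀ v ∈ S, ((G.neighborSet v).ncard : ℝ) < ε * n) → S.card ≤ k) → FewU G := by
  obtain ⟨N, hN⟩ := exists_nat_gt (1 / ε)
  obtain ⟨n₀, hn₀⟩ := le_lv (N + k)
  refine ⟨n₀, fun n hn G h S hS hd => ?_⟩
  have hl := hn₀ n hn
  refine le_trans (h S hS fun v hv => ?_) (by omega)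
  have h1 := hd v hv
  have h2 : N < 2 ^ lv n := lt_of_lt_of_le Nat.lt_two_pow_self
    (Nat.pow_le_pow_right (by norm_num) (by omega))
  have h3 : (1 : ℝ) < ε * N := by
    rw [div_lt_iff₀ hε] at hN
    linarith
  have h4 : (N : ℝ) * (G.neighborSet v).ncard ≤ (2 : ℝ) ^ lv n * (G.neighborSet v).ncard := by
    refine mul_le_mul_of_nonneg_right ?_ (Nat.cast_nonneg _)
    exact_mod_cast h2.le
  have h5 : (2 : ℝ) ^ lv n * (G.neighborSet v).ncard < n := by exact_mod_cast h1
  have h6 : (N : ℝ) * (G.neighborSet v).ncard < n := lt_of_le_of_lt h4 h5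
  have h7 : ε * ((N : ℝ) * (G.neighborSet v).ncard) < ε * n := mul_lt_mul_of_pos_left h6 hε
  have h8 : (1 : ℝ) * (G.neighborSet v).ncard ≤ ε * N * (G.neighborSet v).ncard :=
    mul_le_mul_of_nonneg_right h3.le (Nat.cast_nonneg _)
  nlinarith

open Classical in
/-- One polynomial-time Turing machine, sound on all graphs and correct on the uniform class. -/
theorem mainU : ∃ (f : Graph → List Bool) (M : TM2ComputableInPolyTime Graph.encode id f),
      (∀ k, Finite (M.tm.Γ k)) ∧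
      (∀ I : Graph, FewU I.G → f I = [decide (Pool.Agent.H26R.GenericallyRigid I.G)]) ∧
      (∀ I : Graph, f I = [true] → Pool.Agent.H26R.GenericallyRigid I.G) ∧
      ∀ I : Graph, f I = [true] ∨ f I = [false] := by
  obtain ⟨n₀, hn₀⟩ := MP_37c7bf_co_h91u.star_uniform
  obtain ⟨f, M, hfin, hf⟩ := MP_37c7bf_co_h74dm.machineU (n₀ + 4)
    (fun m G => Pool.Agent.H26R.GenericallyRigid G)
  have hsound : ∀ I : Graph, f I = [true] → Pool.Agent.H26R.GenericallyRigid I.G := by
    intro I hI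
    obtain ⟨b, hb, hb2⟩ := hf I
    rw [hI] at hb
    obtain rfl : b = true := by simpa using hb.symm
    rcases hb2.1 rfl with ⟨-, h⟩ | ⟨hn, h⟩
    · exact h
    · exact h.rigid (by omega)
  refine ⟨f, M, hfin, fun I hI => ?_, hsound, fun I => ?_⟩
  · obtain ⟨b, hb, hb2⟩ := hf I
    have hiff : b = true ↔ Pool.Agent.H26R.GenericallyRigid I.G := by
      refine ⟨fun h => hsound I (by rw [hb, h]), fun h => hb2.2 ?_⟩
      rcases Nat.lt_or_ge (n₀ + 4) I.n with hn | hn
      · refine Or.inr ⟨hn, ?_⟩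
        obtain ⟨T, hT, hTn, hb⟩ := hn₀ I.n (by omega) I.G hI
        exact accU_of_rigid (by omega) hT hTn hb h
      · exact Or.inl ⟨hn, h⟩
    rw [hb]
    congr 1
    rcases b with _ | _
    · have : ¬ Pool.Agent.H26R.GenericallyRigid I.G := fun h => Bool.false_ne_true (hiff.2 h)
      simp [this]
    · simp [hiff.1 rfl]
  · obtain ⟨b, hb, -⟩ := hf I
    rw [hb]
    rcases b with _ | _ <;> simp

end Pool.Agent.Lib.MP_37c7bf_co_h77dm
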